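import Mathlib

set_option autoImplicit false

/-!
# Polarized relations with entries `κ, κ; κ, θ` at all regular cardinals

Let `κ` be a regular cardinal and `θ` an infinite cardinal with `μ ^ θ < κ` for all `μ < κ`. Then
`(κ, lam) → ((κ, (κ)_ν), (κ, (θ)_ν))` for all `lam > κ^{<κ}` and all `ν < cf θ`. This is proved
without the generalized continuum hypothesis; under it one obtains the relation `(∗)` of the
problem and its analogues at all cardinals.

Proof. Suppose that there is no `κ × θ` rectangle in the colours different from `0` and no `κ × κ`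
rectangle in the colour `0`. For `K ⊆ lam` of size less than `κ` all but fewer than `κ` rows `x`
have fewer than `θ` places `y ∈ K` of a colour different from `0`. There is a column `y₀` with a
set `X` of `κ` places of colour `0` such that for every `L ⊆ X` of size less than `κ` at least `κ`
columns have the colour `0` on `L`. By recursion one finds `x_i ∈ X` and `y_i` such that every row
`x_i` has fewer than `θ` places `y_j` of a colour different from `0`. Splitting the `y_j` into `θ`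
blocks of size `κ`, every row `x_i` is constantly `0` on one of the blocks, and `κ` rows on the
same block, a contradiction.
-/

namespace Pool.Agent.Results.MP_5cad05_lc.RegularCardinals

open Set
open Cardinal hiding univ

universe u

/-- The generalized continuum hypothesis (in the universe `u`). -/
def GCH : Prop := ∀ κ : Cardinal.{u}, ℵ₀ ≤ κ → (2 : Cardinal.{u}) ^ κ = Order.succ κ

/-- The polarized relation `(κ, lam) → ((η₀, η₁), (η₂, η₃))`: for all sets `A`, `B` of sizes `κ`,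
`lam` and every two-colouring `c` of `A × B` there are `H₀ ⊆ A`, `H₁ ⊆ B` with
`|H₀| = η₀`, `|H₁| = η₂` and all of `H₀ × H₁` in colour `false` (the class `Δ₀`), or
`|H₀| = η₁`, `|H₁| = η₃` and all of `H₀ × H₁` in colour `true` (the class `Δ₁`). -/
def Polarized (κ lam η₀ η₁ η₂ η₃ : Cardinal.{u}) : Prop :=
  ∀ (A B : Type u), #A = κ → #B = lam → ∀ c : A → B → Bool,
    (∃ (H₀ : Set A) (H₁ : Set B), #H₀ = η₀ ∧ #H₁ = η₂ ∧ ∀ x ∈ H₀, ∀ y ∈ H₁, c x y = false) ∨
    (∃ (H₀ : Set A) (H₁ : Set B), #H₀ = η₁ ∧ #H₁ = η₃ ∧ ∀ x ∈ H₀, ∀ y ∈ H₁, c x y = true)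

/-- The polarized relation `(κ, lam) → ((η₀, (η₁)_ν), (η₂, (η₃)_ν))` with one special colour `none`
and `ν` further colours `some n`. -/
def PolarizedMany (ν κ lam η₀ η₁ η₂ η₃ : Cardinal.{u}) : Prop :=
  ∀ (N A B : Type u), #N = ν → #A = κ → #B = lam → ∀ c : A → B → Option N,
    (∃ (H₀ : Set A) (H₁ : Set B), #H₀ = η₀ ∧ #H₁ = η₂ ∧ ∀ x ∈ H₀, ∀ y ∈ H₁, c x y = none) ∨
    (∃ (n : N) (H₀ : Set A) (H₁ : Set B), #H₀ = η₁ ∧ #H₁ = η₃ ∧
      ∀ x ∈ H₀, ∀ y ∈ H₁, c x y = some n)

/-- transfinite recursion with a side condition on the set of earlier values -/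
theorem exists_seq {I α : Type u} [LinearOrder I] [WellFoundedLT I] (P : I → Set α → α → Prop)
    (h : ∀ (i : I) (f : Iio i → α), ∃ x, P i (range f) x) :
    ∃ g : I → α, ∀ i, P i (g '' Iio i) (g i) := by
  classical
  choose F hF using h
  let g : I → α := WellFounded.fix (C := fun _ => α) (wellFounded_lt (α := I))
    (fun i r => F i (fun j => r j.1 j.2))
  have hg : ∀ i, g i = F i (fun j => g j.1) := fun i =>
    WellFounded.fix_eq (C := fun _ => α) (wellFounded_lt (α := I)) _ i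
  refine ⟨g, fun i => ?_⟩
  have h1 := hF i (fun j => g j.1)
  rw [← hg i] at h1
  convert h1 using 1
  ext x
  simp

theorem exists_sub {α : Type u} {κ : Cardinal.{u}} (s : Set α) (h : κ ≤ #s) :
    ∃ t ⊆ s, #t = κ := by
  obtain ⟨t, ht, h'⟩ := le_mk_iff_exists_subset.1 h
  exact ⟨t, ht, h'⟩

section

variable {A B : Type u} {κ θ : Cardinal.{u}} (hκ : κ.IsRegular) (hθ : ℵ₀ ≤ θ)
  (hpow : ∀ μ < κ, μ ^ θ < κ)
  {c : A → B → Bool}
  (h1 : ¬ ∃ (H₀ : Set A) (H₁ : Set B), #H₀ = κ ∧ #H₁ = θ ∧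
    ∀ x ∈ H₀, ∀ y ∈ H₁, c x y = true)

include hκ hpow in
theorem theta_lt : θ < κ := by
  have h2 : (2 : Cardinal.{u}) < κ := (natCast_lt_aleph0 (n := 2)).trans_le hκ.aleph0_le
  exact (cantor θ).trans (hpow 2 h2)

include hκ hpow h1 in
theorem trace_small (K : Set B) (hK : #K < κ) :
    #{x : A | θ ≤ #(K ∩ {y | c x y = true} : Set B)} < κ := by
  have hsub : {x : A | θ ≤ #(K ∩ {y | c x y = true} : Set B)} ⊆
      ⋃ f : {f : θ.out → K // Function.Injective f}, {x : A | ∀ n, c x (f.1 n) = true} := by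
    intro x hx
    rw [mem_iUnion]
    have hx' : θ ≤ #(K ∩ {y | c x y = true} : Set B) := hx
    rw [← mk_out θ] at hx'
    obtain ⟨e⟩ := hx'
    refine ⟨⟨fun n => ⟨(e n).1, (e n).2.1⟩, ?_⟩, ?_⟩
    · intro a b hab
      have : (e a).1 = (e b).1 := congrArg (fun z : K => z.1) hab
      exact e.injective (Subtype.ext this)
    · intro n
      exact (e n).2.2
  refine (mk_le_mk_of_subset hsub).trans_lt ?_
  have hcard : #{f : θ.out → K // Function.Injective f} < κ := by
    refine (mk_subtype_le _).trans_lt ?_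
    rw [← power_def, mk_out]
    exact hpow _ hK
  refine (card_iUnion_lt_iff_forall_of_isRegular hκ hcard).2 fun f => ?_
  by_contra hlt
  push Not at hlt
  obtain ⟨H₀, hH₀, hc⟩ := exists_sub _ hlt
  refine h1 ⟨H₀, range (fun n => (f.1 n).1), hc, ?_, ?_⟩
  · rw [mk_range_eq _ (fun a b hab => f.2 (Subtype.ext hab)), mk_out]
  · rintro x hx _ ⟨n, rfl⟩
    exact hH₀ hx n

include hκ hθ hpow h1 in
/-- the main recursion -/
theorem recursion (h0 : ¬ ∃ (H₀ : Set A) (H₁ : Set B), #H₀ = κ ∧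
      #H₁ = κ ∧ ∀ x ∈ H₀, ∀ y ∈ H₁, c x y = false)
    (X : Set A) (hX : #X = κ)
    (hL : ∀ L : Set A, L ⊆ X → #L < κ →
      κ ≤ #({y | ∀ x ∈ L, c x y = false} : Set B)) : False := by
  classical
  have hs : ℵ₀ ≤ κ := hκ.aleph0_le
  have hθκ : θ < κ := theta_lt hκ hpow
  let I : Type u := κ.ord.ToType
  have hI : #I = κ := by simp [I]
  have hseg : ∀ i : I, #(Iio i) < κ := by
    intro i
    have : #(Iio i) < #I := Cardinal.mk_Iio_lt i (by
      rw [mk_toType, card_ord, Ordinal.type_toType])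
    rwa [hI] at this
  obtain ⟨g, hg⟩ := exists_seq (I := I) (α := A × B) (fun _ Q p =>
    p.1 ∈ X ∧ p.1 ∉ Prod.fst '' Q ∧ #((Prod.snd '' Q) ∩ {y | c p.1 y = true} : Set B) < θ ∧
    p.2 ∉ Prod.snd '' Q ∧ c p.1 p.2 = false ∧ ∀ q ∈ Q, q.1 ∈ X → c q.1 p.2 = false) (by
    intro i f
    set Q := range f with hQ
    have hQc : #Q < κ := mk_range_le.trans_lt (hseg i)
    have hK : #(Prod.snd '' Q) < κ := mk_image_le.trans_lt hQc
    have hF : #(Prod.fst '' Q) < κ := mk_image_le.trans_lt hQc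
    have hbad : #((Prod.fst '' Q) ∪ {x : A | θ ≤ #((Prod.snd '' Q) ∩ {y | c x y = true} : Set B)} :
        Set A) < κ := by
      refine (mk_union_le _ _).trans_lt ?_
      exact add_lt_of_lt hs hF (trace_small hκ hpow h1 _ hK)
    obtain ⟨x, hxX, hx⟩ : ∃ x ∈ X, x ∉ ((Prod.fst '' Q) ∪
        {x : A | θ ≤ #((Prod.snd '' Q) ∩ {y | c x y = true} : Set B)} : Set A) := by
      by_contra hcon
      push Not at hcon
      have : #X < κ := (mk_le_mk_of_subset hcon).trans_lt hbad
      rw [hX] at this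
      exact lt_irrefl _ this
    have hx1 : x ∉ Prod.fst '' Q := fun h => hx (Or.inl h)
    have hx2 : #((Prod.snd '' Q) ∩ {y | c x y = true} : Set B) < θ := by
      by_contra h
      exact hx (Or.inr (not_lt.1 h))
    let L : Set A := insert x ((Prod.fst '' Q) ∩ X)
    have hLc : #L < κ := by
      refine (mk_insert_le).trans_lt ?_
      exact add_lt_of_lt hs ((mk_le_mk_of_subset inter_subset_left).trans_lt hF)
        (one_lt_aleph0.trans_le hs)
    have hLX : L ⊆ X := insert_subset hxX inter_subset_right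
    have h5 := hL L hLX hLc
    obtain ⟨y, hy, hyQ⟩ : ∃ y ∈ ({y | ∀ x ∈ L, c x y = false} : Set B),
        y ∉ Prod.snd '' Q := by
      by_contra hcon
      push Not at hcon
      have : #({y | ∀ x ∈ L, c x y = false} : Set B) < κ :=
        (mk_le_mk_of_subset hcon).trans_lt hK
      exact absurd this (not_lt.2 h5)
    refine ⟨(x, y), hxX, hx1, hx2, hyQ, hy x (mem_insert _ _), ?_⟩
    intro q hq hqX
    exact hy q.1 (mem_insert_of_mem _ ⟨⟨q, hq, rfl⟩, hqX⟩))
  have hXg : ∀ i, (g i).1 ∈ X := fun i => (hg i).1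
  have hinj1 : Function.Injective fun i => (g i).1 := by
    intro i j hij
    by_contra hne
    rcases lt_or_gt_of_ne hne with h | h
    · exact (hg j).2.1 ⟨g i, ⟨i, h, rfl⟩, hij⟩
    · exact (hg i).2.1 ⟨g j, ⟨j, h, rfl⟩, hij.symm⟩
  have hinj2 : Function.Injective fun i => (g i).2 := by
    intro i j hij
    by_contra hne
    rcases lt_or_gt_of_ne hne with h | h
    · exact (hg j).2.2.2.1 ⟨g i, ⟨i, h, rfl⟩, hij⟩
    · exact (hg i).2.2.2.1 ⟨g j, ⟨j, h, rfl⟩, hij.symm⟩
  have hfin : ∀ i, #{j | c (g i).1 (g j).2 = true} < θ := by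
    intro i
    have hsub : {j | c (g i).1 (g j).2 = true} ⊆
        (fun j => (g j).2) ⁻¹' ((Prod.snd '' (g '' Iio i)) ∩ {y | c (g i).1 y = true}) := by
      intro j hj
      have hj' : c (g i).1 (g j).2 = true := hj
      refine ⟨?_, hj'⟩
      rcases lt_trichotomy j i with h | h | h
      · exact ⟨g j, ⟨j, h, rfl⟩, rfl⟩
      · subst h
        rw [(hg j).2.2.2.2.1] at hj'
        exact absurd hj' (by simp)
      · rw [(hg j).2.2.2.2.2 (g i) ⟨i, h, rfl⟩ (hXg i)] at hj'
        exact absurd hj' (by simp)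
    refine (mk_le_mk_of_subset hsub).trans_lt ?_
    exact (mk_preimage_of_injective _ _ hinj2).trans_lt (hg i).2.2.1
  -- split the index set into `θ` large pieces
  obtain ⟨e⟩ : Nonempty (I × θ.out ≃ I) := by
    refine Cardinal.eq.1 ?_
    rw [mk_prod, lift_id, lift_id, mk_out, hI]
    exact mul_eq_left hs hθκ.le (aleph0_pos.trans_le hθ).ne'
  have hpiece : ∀ i : I, ∃ n : θ.out, ∀ k : I, c (g i).1 (g (e (k, n))).2 = false := by
    intro i
    have h2 : #((fun j : I => (e.symm j).2) '' {j | c (g i).1 (g j).2 = true}) < θ :=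
      mk_image_le.trans_lt (hfin i)
    obtain ⟨n, hn⟩ : ∃ n : θ.out,
        n ∉ (fun j : I => (e.symm j).2) '' {j | c (g i).1 (g j).2 = true} := by
      by_contra hcon
      push Not at hcon
      have h3 : (fun j : I => (e.symm j).2) '' {j | c (g i).1 (g j).2 = true} = univ :=
        eq_univ_of_forall hcon
      rw [h3, mk_univ, mk_out] at h2
      exact lt_irrefl _ h2
    refine ⟨n, fun k => ?_⟩
    by_contra hne
    have hne' : c (g i).1 (g (e (k, n))).2 = true := by
      cases h : c (g i).1 (g (e (k, n))).2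
      · exact absurd h hne
      · rfl
    exact hn ⟨e (k, n), hne', by simp⟩
  choose ν hν using hpiece
  obtain ⟨n, hn⟩ : ∃ n : θ.out, κ ≤ #(ν ⁻¹' {n} : Set I) := by
    by_contra hcon
    push Not at hcon
    have huniv : (univ : Set I) = ⋃ n, ν ⁻¹' {n} := by
      ext i
      simp
    have h3 : #(univ : Set I) < κ := by
      rw [huniv]
      exact (card_iUnion_lt_iff_forall_of_isRegular hκ (by rwa [mk_out])).2 hcon
    rw [mk_univ, hI] at h3
    exact lt_irrefl _ h3
  refine h0 ⟨(fun i => (g i).1) '' (ν ⁻¹' {n}), range fun k => (g (e (k, n))).2, ?_, ?_, ?_⟩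
  · rw [mk_image_eq hinj1]
    refine le_antisymm ?_ hn
    exact (mk_set_le _).trans hI.le
  · rw [mk_range_eq, hI]
    intro a b hab
    have := e.injective (hinj2 hab)
    exact (Prod.ext_iff.1 this).1
  · rintro _ ⟨i, hi, rfl⟩ _ ⟨k, rfl⟩
    have hi' : ν i = n := hi
    have := hν i k
    rw [hi'] at this
    exact this

end

/-- the number of subsets of size less than `κ` of a set of size `κ` -/
theorem card_small {κ : Cardinal.{u}} (hκ : ℵ₀ ≤ κ) (A : Type u) (hA : #A = κ) :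
    #{L : Set A // #L < κ} ≤ κ ^< κ := by
  let W : κ.ord.ToType → Type u := fun i => (Ordinal.ToType.toOrd i : Ordinal.{u}).ToType
  have hW : ∀ i, #(W i) < κ := by
    intro i
    have h1 : (Ordinal.ToType.toOrd i : Ordinal.{u}) < κ.ord := (Ordinal.ToType.toOrd i).2
    rw [lt_ord] at h1
    simpa [W] using h1
  let g : (Σ i : κ.ord.ToType, (W i → A)) → {L : Set A // #L < κ} := fun p =>
    ⟨range p.2, mk_range_le.trans_lt (hW p.1)⟩
  have hg : Function.Surjective g := by
    rintro ⟨s, hs⟩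
    have h1 : (#s).ord < κ.ord := ord_lt_ord.2 hs
    let i : κ.ord.ToType := Ordinal.ToType.mk ⟨(#s).ord, h1⟩
    have h2 : #(W i) = #s := by
      simp [W, i]
    obtain ⟨e⟩ := Cardinal.eq.1 h2
    refine ⟨⟨i, fun w => (e w : A)⟩, ?_⟩
    apply Subtype.ext
    change range (fun w => (e w : A)) = s
    ext x
    constructor
    · rintro ⟨w, rfl⟩
      exact (e w).2
    · intro hx
      exact ⟨e.symm ⟨x, hx⟩, by simp⟩
  refine (mk_le_of_surjective hg).trans ?_
  rw [mk_sigma]
  have h3 : ∀ i : κ.ord.ToType, #(W i → A) ≤ κ ^< κ := by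
    intro i
    rw [← power_def, hA]
    exact le_powerlt κ (hW i)
  refine (sum_le_sum _ (fun _ => κ ^< κ) h3).trans ?_
  simp only [sum_const, lift_id, mk_toType, card_ord]
  have h4 : κ ≤ κ ^< κ := by
    have := le_powerlt κ (one_lt_aleph0.trans_le hκ)
    rwa [power_one] at this
  exact (mul_le_mul' h4 le_rfl).trans (mul_eq_self (hκ.trans h4)).le

/-- the two-coloured case -/
theorem two {κ θ lam : Cardinal.{u}} (hκ : κ.IsRegular) (hθ : ℵ₀ ≤ θ)
    (hpow : ∀ μ < κ, μ ^ θ < κ) (hlam : κ ^< κ < lam) :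
    Polarized κ lam κ κ κ θ := by
  classical
  intro A B hA hB c
  by_contra hcon
  rw [not_or] at hcon
  obtain ⟨h0, h1⟩ := hcon
  have hs : ℵ₀ ≤ κ := hκ.aleph0_le
  have hθκ : θ < κ := theta_lt hκ hpow
  have h4 : κ ≤ κ ^< κ := by
    have := le_powerlt κ (one_lt_aleph0.trans_le hs)
    rwa [power_one] at this
  let u : {L : Set A // #L < κ} → Set B := fun L => {y | ∀ x ∈ L.1, c x y = false}
  let Bad : Set B := ⋃ L : {L : {L : Set A // #L < κ} // #(u L) < κ}, u L.1
  have hBad : #Bad ≤ κ ^< κ := by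
    refine (mk_iUnion_le _).trans ?_
    have h3 : (⨆ L : {L : {L : Set A // #L < κ} // #(u L) < κ}, #(u L.1)) ≤ κ ^< κ :=
      ciSup_le' fun L => L.2.le.trans h4
    exact (mul_le_mul' ((mk_subtype_le _).trans (card_small hs A hA)) h3).trans
      (mul_eq_self (hs.trans h4)).le
  -- all but fewer than `θ` columns have a large zero set
  have hZ : #{y : B | #{x : A | c x y = false} < κ} < θ := by
    by_contra hinf
    push Not at hinf
    rw [← mk_out θ] at hinf
    obtain ⟨e⟩ := hinf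
    let Z : Set A := ⋃ n : θ.out, {x : A | c x (e n).1 = false}
    have hZc : #Z < κ :=
      (card_iUnion_lt_iff_forall_of_isRegular hκ (by rwa [mk_out])).2 fun n => (e n).2
    have hZd : #(Zᶜ : Set A) = κ := by
      have : Infinite A := infinite_iff.2 (by rw [hA]; exact hs)
      have := mk_compl_of_infinite Z (by rw [hA]; exact hZc)
      rw [this, hA]
    refine h1 ⟨Zᶜ, range fun n => (e n).1, hZd, ?_, ?_⟩
    · rw [mk_range_eq _ (fun a b hab => e.injective (Subtype.ext hab)), mk_out]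
    · rintro x hx _ ⟨n, rfl⟩
      by_contra hne
      refine hx (mem_iUnion.2 ⟨n, ?_⟩)
      cases h : c x (e n).1
      · exact h
      · exact absurd h hne
  obtain ⟨y₀, hy₀⟩ : ∃ y₀ : B, y₀ ∉ Bad ∪ {y : B | #{x : A | c x y = false} < κ} := by
    by_contra hcon
    push Not at hcon
    have h3 : #(univ : Set B) ≤ κ ^< κ := by
      refine (mk_le_mk_of_subset fun y _ => hcon y).trans ((mk_union_le _ _).trans ?_)
      exact (add_le_add hBad (hZ.le.trans (hθκ.le.trans h4))).trans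
        (add_eq_self (hs.trans h4)).le
    rw [mk_univ, hB] at h3
    exact absurd hlam (not_lt.2 h3)
  have hy1 : y₀ ∉ Bad := fun h => hy₀ (Or.inl h)
  have hy2 : κ ≤ #{x : A | c x y₀ = false} := by
    by_contra h
    exact hy₀ (Or.inr (not_le.1 h))
  obtain ⟨X, hXsub, hX⟩ := exists_sub _ hy2
  refine recursion hκ hθ hpow h1 h0 X hX ?_
  intro L hLX hLc
  by_contra hlt
  push Not at hlt
  exact hy1 (mem_iUnion.2 ⟨⟨⟨L, hLc⟩, hlt⟩, fun x hx => hXsub (hLX hx)⟩)

/-- many colours -/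
theorem many {κ θ lam ν : Cardinal.{u}} (hκ : κ.IsRegular) (hθ : ℵ₀ ≤ θ)
    (hpow : ∀ μ < κ, μ ^ θ < κ) (hlam : κ ^< κ < lam) (hν : ν < θ.ord.cof) :
    PolarizedMany ν κ lam κ κ κ θ := by
  classical
  intro N A B hN hA hB c
  have hθκ : θ < κ := theta_lt hκ hpow
  rcases two hκ hθ hpow hlam A B hA hB (fun x y => (c x y).isSome) with
    ⟨H₀, H₁, h1, h2, h3⟩ | ⟨H₀, H₁, h1, h2, h3⟩
  · refine Or.inl ⟨H₀, H₁, h1, h2, fun x hx y hy => ?_⟩
    have := h3 x hx y hy
    simpa using this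
  · right
    -- the rows, as functions from `H₁` to the colours
    let r : H₀ → (H₁ → N) := fun x y => (c x y).get (h3 x x.2 y y.2)
    have hr : ∀ (x : H₀) (y : H₁), c x y = some (r x y) := fun x y => by simp [r]
    have hνκ : ν < κ := hν.trans_le ((Ordinal.cof_ord_le θ).trans hθκ.le)
    have hcard : #(H₁ → N) < κ := by
      rw [← power_def, hN, h2]
      exact hpow ν hνκ
    obtain ⟨f, hf⟩ : ∃ f : H₁ → N, κ ≤ #(r ⁻¹' {f} : Set H₀) := by
      by_contra hcon
      push Not at hcon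
      have huniv : (univ : Set H₀) = ⋃ f, r ⁻¹' {f} := by
        ext i
        simp
      have h4 : #(univ : Set H₀) < κ := by
        rw [huniv]
        exact (card_iUnion_lt_iff_forall_of_isRegular hκ hcard).2 hcon
      rw [mk_univ, h1] at h4
      exact lt_irrefl _ h4
    obtain ⟨n, hn⟩ : ∃ n : N, θ ≤ #(f ⁻¹' {n} : Set H₁) := by
      obtain ⟨n, hn⟩ := infinite_pigeonhole_card f θ (by rw [h2]) hθ (by rw [hN]; exact hν)
      exact ⟨n, hn⟩
    refine ⟨n, Subtype.val '' (r ⁻¹' {f}), Subtype.val '' (f ⁻¹' {n}), ?_, ?_, ?_⟩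
    · rw [mk_image_eq Subtype.val_injective]
      refine le_antisymm ?_ hf
      exact (mk_set_le _).trans h1.le
    · rw [mk_image_eq Subtype.val_injective]
      refine le_antisymm ?_ hn
      exact (mk_set_le _).trans h2.le
    · rintro _ ⟨x, hx, rfl⟩ _ ⟨y, hy, rfl⟩
      have hx' : r x = f := hx
      have hy' : f y = n := hy
      rw [hr x y, hx', hy']

theorem succ_pow {χ θ : Cardinal.{u}} (hθ : ℵ₀ ≤ θ) (hθχ : θ ≤ χ) (hGCH : GCH.{u}) :
    ∀ μ < Order.succ (Order.succ χ), μ ^ θ < Order.succ (Order.succ χ) := by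
  intro μ hμ
  have hχ : ℵ₀ ≤ χ := hθ.trans hθχ
  have h1 : μ ≤ Order.succ χ := Order.lt_succ_iff.1 hμ
  refine Order.lt_succ_of_le ((power_le_power_right h1).trans ?_)
  rw [← hGCH χ hχ, ← power_mul, mul_eq_left hχ hθχ (aleph0_pos.trans_le hθ).ne']

theorem powerlt_succ_succ {χ : Cardinal.{u}} (hχ : ℵ₀ ≤ χ) (hGCH : GCH.{u}) :
    Order.succ (Order.succ χ) ^< Order.succ (Order.succ χ) = Order.succ (Order.succ χ) := by
  have h1 : ℵ₀ ≤ Order.succ χ := hχ.trans (Order.le_succ χ)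
  rw [powerlt_succ (lt_of_lt_of_le (aleph0_pos.trans_le h1) (Order.le_succ _)).ne',
    ← hGCH _ h1, ← power_mul, mul_eq_self h1]

/-- **The polarized relation at all regular cardinals.** In ZFC: let `κ` be a regular cardinal and
`θ` an infinite cardinal with `μ ^ θ < κ` for all `μ < κ`, let `lam > κ^{<κ}` and `ν < cf θ`. Then
`(κ, lam) → ((κ, (κ)_ν), (κ, (θ)_ν))`: every colouring of `κ × lam` with the colour `0` and `ν`
other colours has a rectangle `κ × κ` of colour `0` or a rectangle `κ × θ` of one of the other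
colours. Hence under GCH `(χ⁺⁺, χ⁺⁺⁺) → ((χ⁺⁺, χ⁺⁺), (χ⁺⁺, θ))` for all infinite cardinals
`θ ≤ χ`; for `θ = χ = ℵ₀` this is the relation `(∗)` of the problem. -/
theorem result :
    (∀ κ θ lam ν : Cardinal.{u}, κ.IsRegular → ℵ₀ ≤ θ → (∀ μ < κ, μ ^ θ < κ) → κ ^< κ < lam →
      ν < θ.ord.cof → PolarizedMany ν κ lam κ κ κ θ ∧ Polarized κ lam κ κ κ θ) ∧
    (GCH.{u} → ∀ χ θ : Cardinal.{u}, ℵ₀ ≤ θ → θ ≤ χ →
      Polarized (Order.succ (Order.succ χ)) (Order.succ (Order.succ (Order.succ χ)))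
        (Order.succ (Order.succ χ)) (Order.succ (Order.succ χ))
        (Order.succ (Order.succ χ)) θ) ∧
    (GCH.{0} → Polarized (ℵ_ 2 : Cardinal.{0}) (ℵ_ 3) (ℵ_ 2) (ℵ_ 2) (ℵ_ 2) (ℵ_ 0)) := by
  have main : ∀ (_ : GCH.{u}) (χ θ : Cardinal.{u}), ℵ₀ ≤ θ → θ ≤ χ →
      Polarized (Order.succ (Order.succ χ)) (Order.succ (Order.succ (Order.succ χ)))
        (Order.succ (Order.succ χ)) (Order.succ (Order.succ χ))
        (Order.succ (Order.succ χ)) θ := by
    intro hGCH χ θ hθ hθχ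
    have hχ : ℵ₀ ≤ χ := hθ.trans hθχ
    refine two (isRegular_succ (hχ.trans (Order.le_succ χ))) hθ (succ_pow hθ hθχ hGCH) ?_
    rw [powerlt_succ_succ hχ hGCH]
    exact Order.lt_succ _
  refine ⟨fun κ θ lam ν hκ hθ hpow hlam hν =>
    ⟨many hκ hθ hpow hlam hν, two hκ hθ hpow hlam⟩, main, ?_⟩
  intro hGCH
  have h1 : Order.succ (ℵ₀ : Cardinal.{0}) = ℵ_ 1 := succ_aleph0
  have h2 : Order.succ (ℵ_ 1 : Cardinal.{0}) = ℵ_ 2 := by
    rw [succ_aleph]; norm_num
  have h3 : Order.succ (ℵ_ 2 : Cardinal.{0}) = ℵ_ 3 := by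
    rw [succ_aleph]; norm_num
  have hχ : ℵ₀ ≤ (ℵ₀ : Cardinal.{0}) := le_rfl
  have h := two (κ := Order.succ (Order.succ ℵ₀)) (θ := ℵ₀)
    (lam := Order.succ (Order.succ (Order.succ ℵ₀)))
    (isRegular_succ (hχ.trans (Order.le_succ _))) le_rfl (succ_pow le_rfl le_rfl hGCH)
    (by rw [powerlt_succ_succ hχ hGCH]; exact Order.lt_succ _)
  rw [h1, h2, h3] at h
  rw [aleph_zero]
  exact h

end Pool.Agent.Results.MP_5cad05_lc.RegularCardinals
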